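import Pool.Agent.H211.CH.Stm2

/-!
# Chains of strict intertwining of polynomials: the coprime case of the semiconjugacy
-/

set_option autoImplicit false

open Polynomial

namespace Pool.Agent.H245.CH211

open Pool.Agent.H211.CH

universe u

section iter

variable {K : Type u} [Field K]

theorem it_succ (P : K[X]) (k : ℕ) : it P (k + 1) = P.comp (it P k) := by
  unfold it
  rw [Function.iterate_succ_apply']

theorem it_deg (P : K[X]) (k : ℕ) : (it P k).natDegree = P.natDegree ^ k := by
  induction k with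
  | zero => simp [it]
  | succ k ih => rw [it_succ, natDegree_comp, ih, pow_succ']

theorem it_semi {F p Y : K[X]} (h : F.comp p = p.comp Y) (k : ℕ) :
    (it F k).comp p = p.comp (it Y k) := by
  induction k with
  | zero => simp [it]
  | succ k ih => rw [it_succ, it_succ, comp_assoc, ih, ← comp_assoc, h, comp_assoc]

theorem it_one (P : K[X]) : it P 1 = P := by
  rw [it_succ]; simp [it]

/-! ## Fibres and critical values -/

open Classical in
/-- The fibre as a finset. -/
noncomputable def fib (G : K[X]) (w : K) : Finset K := (G - C w).roots.toFinset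

open Classical in
/-- The critical values. -/
noncomputable def cv (p : K[X]) : Finset K :=
  (derivative p).roots.toFinset.image (fun t => p.eval t)

theorem sub_C_ne {G : K[X]} (hG : 0 < G.natDegree) (w : K) : G - C w ≠ 0 := by
  intro h
  rw [sub_eq_zero] at h
  rw [h, natDegree_C] at hG
  exact lt_irrefl _ hG

theorem mem_fib {G : K[X]} (hG : 0 < G.natDegree) (w y : K) :
    y ∈ fib G w ↔ G.eval y = w := by
  classical
  unfold fib
  rw [Multiset.mem_toFinset, mem_roots (sub_C_ne hG w)]
  simp [IsRoot, sub_eq_zero]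

theorem ncard_fib {G : K[X]} (hG : 0 < G.natDegree) (w : K) :
    {y : K | G.eval y = w}.ncard = (fib G w).card := by
  have : {y : K | G.eval y = w} = ((fib G w : Finset K) : Set K) := by
    ext y
    rw [Finset.mem_coe, mem_fib hG]; rfl
  rw [this, Set.ncard_coe_finset]

theorem cv_card (p : K[X]) : (cv p).card ≤ p.natDegree - 1 := by
  classical
  unfold cv
  calc _ ≤ (derivative p).roots.toFinset.card := Finset.card_image_le
    _ ≤ (derivative p).roots.card := Multiset.toFinset_card_le _
    _ ≤ (derivative p).natDegree := card_roots' _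
    _ ≤ p.natDegree - 1 := natDegree_derivative_le p

theorem two_le_mu {p : K[X]} (hp : 0 < p.natDegree) (t : K) :
    2 ≤ mu p t ↔ (derivative p).IsRoot t := by
  have h := one_lt_rootMultiplicity_iff_isRoot (p := p - C (p.eval t)) (t := t) (sub_C_ne hp _)
  unfold mu
  rw [Nat.succ_le_iff, h]
  simp [IsRoot]

end iter

section char0

variable {K : Type u} [Field K] [CharZero K]

theorem der_ne {p : K[X]} (hp : 0 < p.natDegree) : derivative p ≠ 0 := by
  intro h
  rw [derivative_eq_zero] at h
  omega

theorem mem_cv {p : K[X]} (hp : 0 < p.natDegree) (w : K) :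
    w ∈ cv p ↔ ∃ t : K, 2 ≤ mu p t ∧ p.eval t = w := by
  classical
  unfold cv
  rw [Finset.mem_image]
  constructor
  · rintro ⟨t, ht, h⟩
    rw [Multiset.mem_toFinset, mem_roots (der_ne hp)] at ht
    exact ⟨t, (two_le_mu hp t).2 ht, h⟩
  · rintro ⟨t, ht, h⟩
    refine ⟨t, ?_, h⟩
    rw [Multiset.mem_toFinset, mem_roots (der_ne hp)]
    exact (two_le_mu hp t).1 ht

/-- Points over a critical value whose multiplicity is not divisible are critical values. -/
theorem partc (hF : S_FIB K) (hM : S_MUL K) {F p Y : K[X]} (hp : 0 < p.natDegree)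
    (hF' : 0 < F.natDegree) (hco : Nat.Coprime p.natDegree F.natDegree)
    (h : F.comp p = p.comp Y) (x y : K) (hxy : F.eval y = p.eval x)
    (hd : ¬ mu p x ∣ mu F y) : y ∈ cv p := by
  obtain ⟨t, ht1, ht2⟩ := hF F p Y hp hF' hco h x y hxy.symm
  have hY : 0 < Y.natDegree := by
    have h1 := congrArg natDegree h
    rw [natDegree_comp, natDegree_comp] at h1
    rcases Nat.eq_zero_or_pos Y.natDegree with h0 | h0
    · rw [h0, mul_zero] at h1
      have := Nat.mul_pos hF' hp
      omega
    · exact h0
  have h1 := hM.1 F p hF' hp t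
  have h2 := hM.1 p Y hp hY t
  rw [h, h2, ht2, ht1] at h1
  rw [mem_cv hp]
  refine ⟨t, ?_, ht1⟩
  by_contra hlt
  have h3 := hM.2.1 p hp t
  have h4 : mu p t = 1 := by omega
  rw [h4, mul_one] at h1
  exact hd ⟨_, h1.symm⟩

omit [CharZero K] in
theorem fib_bound (hM : S_MUL K) {G : K[X]} (hG : 0 < G.natDegree) (w : K) (e : ℕ)
    (B : Finset K) (hB : ∀ y, G.eval y = w → ¬ e ∣ mu G y → y ∈ B) :
    e * (fib G w).card ≤ e * B.card + G.natDegree := by
  classical
  have hsum := hM.2.2 G hG w (fib G w) (mem_fib hG w)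
  have hsplit : ((fib G w).filter (fun y => e ∣ mu G y)).card
      + ((fib G w).filter (fun y => ¬ e ∣ mu G y)).card = (fib G w).card :=
    Finset.card_filter_add_card_filter_not _
  have h1 : ((fib G w).filter (fun y => ¬ e ∣ mu G y)).card ≤ B.card := by
    apply Finset.card_le_card
    intro y hy
    rw [Finset.mem_filter, mem_fib hG] at hy
    exact hB y hy.1 hy.2
  have h2 : e * ((fib G w).filter (fun y => e ∣ mu G y)).card ≤ G.natDegree := by
    calc e * ((fib G w).filter (fun y => e ∣ mu G y)).card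
        = ∑ _y ∈ (fib G w).filter (fun y => e ∣ mu G y), e := by
          rw [Finset.sum_const, smul_eq_mul, mul_comm]
      _ ≤ ∑ y ∈ (fib G w).filter (fun y => e ∣ mu G y), mu G y := by
          apply Finset.sum_le_sum
          intro y hy
          exact Nat.le_of_dvd (hM.2.1 G hG y) (Finset.mem_filter.1 hy).2
      _ ≤ ∑ y ∈ fib G w, mu G y := Finset.sum_le_sum_of_subset (Finset.filter_subset _ _)
      _ = G.natDegree := hsum
  calc e * (fib G w).card = e * ((fib G w).filter (fun y => e ∣ mu G y)).card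
      + e * ((fib G w).filter (fun y => ¬ e ∣ mu G y)).card := by rw [← mul_add, hsplit]
    _ ≤ G.natDegree + e * B.card := Nat.add_le_add h2 (Nat.mul_le_mul_left _ h1)
    _ = e * B.card + G.natDegree := add_comm _ _

/-- An iterate of large degree with small fibres over the critical values. -/
theorem key (hF : S_FIB K) (hM : S_MUL K) {F p Y : K[X]} (hD : 2 ≤ F.natDegree)
    (hm : 2 ≤ p.natDegree) (hco : Nat.Coprime p.natDegree F.natDegree)
    (h : F.comp p = p.comp Y) :
    ∃ G : K[X], 12 * p.natDegree < G.natDegree ∧ ∀ x : K, ∀ e : ℕ, e ≤ mu p x →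
      (e : ℤ) * ((fib G (p.eval x)).card : ℤ) ≤ e * ((p.natDegree : ℤ) - 1) + G.natDegree := by
  have hp : 0 < p.natDegree := by omega
  have hdeg : 12 * p.natDegree < (it F (12 * p.natDegree)).natDegree := by
    rw [it_deg]
    calc 12 * p.natDegree < 2 ^ (12 * p.natDegree) := Nat.lt_two_pow_self
      _ ≤ F.natDegree ^ (12 * p.natDegree) := Nat.pow_le_pow_left hD _
  refine ⟨it F (12 * p.natDegree), hdeg, ?_⟩
  intro x e he
  set G := it F (12 * p.natDegree) with hGdef
  have hG : 0 < G.natDegree := by omega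
  have hco' : Nat.Coprime p.natDegree G.natDegree := by
    rw [hGdef, it_deg]
    exact Nat.Coprime.pow_right _ hco
  have hb := fib_bound hM hG (p.eval x) (mu p x) (cv p)
    (fun y hy hd => partc hF hM hp hG hco' (it_semi h _) x y hy hd)
  have hc := cv_card p
  have hc' : ((cv p).card : ℤ) ≤ (p.natDegree : ℤ) - 1 := by omega
  have hb' : (mu p x : ℤ) * ((fib G (p.eval x)).card : ℤ)
      ≤ (mu p x : ℤ) * ((cv p).card : ℤ) + (G.natDegree : ℤ) := by exact_mod_cast hb
  have he' : (e : ℤ) ≤ (mu p x : ℤ) := by exact_mod_cast he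
  have he0 : (0 : ℤ) ≤ e := Int.natCast_nonneg e
  have hG0 : (0 : ℤ) ≤ G.natDegree := Int.natCast_nonneg _
  rcases le_or_gt ((fib G (p.eval x)).card : ℤ) ((p.natDegree : ℤ) - 1) with hs | hs
  · nlinarith
  · nlinarith

/-- At most two critical values; if there are two, all multiplicities are at most two. -/
theorem few (hF : S_FIB K) (hR : S_RH K) (hM : S_MUL K) {F p Y : K[X]} (hD : 2 ≤ F.natDegree)
    (hm : 2 ≤ p.natDegree) (hco : Nat.Coprime p.natDegree F.natDegree)
    (h : F.comp p = p.comp Y) :
    (cv p).card ≤ 2 ∧ ∀ x y : K, 2 ≤ mu p y → p.eval x ≠ p.eval y → mu p x ≤ 2 := by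
  classical
  have hp : 0 < p.natDegree := by omega
  obtain ⟨G, hG1, hG2⟩ := key hF hM hD hm hco h
  have hG : 0 < G.natDegree := by omega
  constructor
  · by_contra hcard
    push Not at hcard
    obtain ⟨w₁, h₁, w₂, h₂, w₃, h₃, h12, h13, h23⟩ := Finset.two_lt_card.1 hcard
    rw [mem_cv hp] at h₁ h₂ h₃
    obtain ⟨x₁, hx₁, rfl⟩ := h₁
    obtain ⟨x₂, hx₂, rfl⟩ := h₂
    obtain ⟨x₃, hx₃, rfl⟩ := h₃
    have b₁ := hG2 x₁ 2 hx₁
    have b₂ := hG2 x₂ 2 hx₂
    have b₃ := hG2 x₃ 2 hx₃
    have hr := hR G hG {p.eval x₁, p.eval x₂, p.eval x₃}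
    rw [Finset.sum_insert, Finset.sum_insert, Finset.sum_singleton, ncard_fib hG, ncard_fib hG,
      ncard_fib hG] at hr
    · push_cast at b₁ b₂ b₃
      omega
    · simpa using h23
    · simp only [Finset.mem_insert, Finset.mem_singleton, not_or]
      exact ⟨h12, h13⟩
  · intro x y hy hxy
    by_contra hx
    push Not at hx
    have b₁ := hG2 x 3 hx
    have b₂ := hG2 y 2 hy
    have hr := hR G hG {p.eval x, p.eval y}
    rw [Finset.sum_insert, Finset.sum_singleton, ncard_fib hG, ncard_fib hG] at hr
    · push_cast at b₁ b₂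
      omega
    · simpa using hxy

end char0

section closed

variable {K : Type u} [Field K] [IsAlgClosed K]

theorem prod_roots (Q : K[X]) (R : Finset K) (hR : ∀ y, y ∉ R → rootMultiplicity y Q = 0) :
    Q = C Q.leadingCoeff * ∏ y ∈ R, (X - C y) ^ rootMultiplicity y Q := by
  classical
  have h1 := C_leadingCoeff_mul_prod_multiset_X_sub_C (p := Q)
    (IsAlgClosed.card_roots_eq_natDegree)
  rw [Finset.prod_multiset_map_count] at h1
  have h2 : ∏ m ∈ Q.roots.toFinset, (X - C m) ^ Multiset.count m Q.roots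
      = ∏ y ∈ R, (X - C y) ^ rootMultiplicity y Q := by
    have h3 : ∀ m ∈ Q.roots.toFinset, (X - C m) ^ Multiset.count m Q.roots
        = (X - C m) ^ rootMultiplicity m Q := by
      intro m _
      rw [count_roots]
    rw [Finset.prod_congr rfl h3]
    by_cases hQ : Q = 0
    · subst hQ
      simp
    · apply Finset.prod_subset
      · intro y hy
        by_contra hyR
        rw [Multiset.mem_toFinset, mem_roots hQ] at hy
        have := (rootMultiplicity_pos hQ).2 hy
        have := hR y hyR
        omega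
      · intro y _ hy
        rw [Multiset.mem_toFinset, ← Multiset.count_eq_zero, count_roots] at hy
        rw [hy, pow_zero]
  rw [h2] at h1
  exact h1.symm

/-- Even multiplicities outside of two points. -/
theorem even_mult (Q : K[X]) (w₁ w₂ : K) (hw : w₁ ≠ w₂)
    (he : ∀ y, y ≠ w₁ → y ≠ w₂ → 2 ∣ rootMultiplicity y Q) :
    ∃ (G : K[X]) (a b : ℕ), a ≤ 1 ∧ b ≤ 1 ∧ Q = (X - C w₁) ^ a * (X - C w₂) ^ b * G ^ 2 := by
  classical
  obtain ⟨c, hc⟩ := IsAlgClosed.exists_pow_nat_eq Q.leadingCoeff (n := 2) (by norm_num)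
  let R : Finset K := Q.roots.toFinset ∪ {w₁, w₂}
  have hR : ∀ y, y ∉ R → rootMultiplicity y Q = 0 := by
    intro y hy
    have h1 : y ∉ Q.roots.toFinset := fun h => hy (Finset.mem_union_left _ h)
    rw [Multiset.mem_toFinset, ← Multiset.count_eq_zero, count_roots] at h1
    exact h1
  have h1 := prod_roots Q R hR
  refine ⟨C c * ∏ y ∈ R, (X - C y) ^ (rootMultiplicity y Q / 2), rootMultiplicity w₁ Q % 2,
    rootMultiplicity w₂ Q % 2, by omega, by omega, ?_⟩
  have h2 : ∏ y ∈ R, (X - C y : K[X]) ^ rootMultiplicity y Q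
      = (∏ y ∈ R, (X - C y) ^ (rootMultiplicity y Q / 2)) ^ 2
        * ∏ y ∈ R, (X - C y) ^ (rootMultiplicity y Q % 2) := by
    rw [← Finset.prod_pow, ← Finset.prod_mul_distrib]
    apply Finset.prod_congr rfl
    intro y _
    rw [← pow_mul, ← pow_add, Nat.div_add_mod' (rootMultiplicity y Q) 2]
  have h3 : ∏ y ∈ R, (X - C y : K[X]) ^ (rootMultiplicity y Q % 2)
      = (X - C w₁) ^ (rootMultiplicity w₁ Q % 2) * (X - C w₂) ^ (rootMultiplicity w₂ Q % 2) := by
    have h5 := Finset.prod_pair (f := fun y : K => (X - C y : K[X]) ^ (rootMultiplicity y Q % 2)) hw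
    rw [← h5]
    symm
    apply Finset.prod_subset Finset.subset_union_right
    intro y _ hy
    simp only [Finset.mem_insert, Finset.mem_singleton, not_or] at hy
    have := he y hy.1 hy.2
    have h4 : rootMultiplicity y Q % 2 = 0 := by omega
    rw [h4, pow_zero]
  calc Q = C Q.leadingCoeff * ∏ y ∈ R, (X - C y) ^ rootMultiplicity y Q := h1
    _ = _ := by
      rw [h2, h3, ← hc, C_pow]
      ring

end closed

section main

variable {K : Type u} [Field K] [IsAlgClosed K] [CharZero K]

/-- One critical value. -/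
theorem one_value (hM : S_MUL K) {p : K[X]} (hm : 2 ≤ p.natDegree) (w : K)
    (h : ∀ x, 2 ≤ mu p x → p.eval x = w) :
    ∃ c a : K, p = C w + C c * (X - C a) ^ p.natDegree := by
  classical
  have hp : 0 < p.natDegree := by omega
  have hsum := hM.2.2 p hp w (fib p w) (mem_fib hp w)
  have hmu : ∀ y ∈ fib p w, mu p y = rootMultiplicity y (p - C w) := by
    intro y hy
    rw [mem_fib hp] at hy
    unfold mu
    rw [hy]
  have hder : ∀ y ∈ fib p w, rootMultiplicity y (derivative p) = mu p y - 1 := by
    intro y hy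
    rw [hmu y hy]
    rw [mem_fib hp] at hy
    have h1 : (p - C w).IsRoot y := by simp [IsRoot, hy]
    have h2 := derivative_rootMultiplicity_of_root h1
    simpa using h2
  have hroots : (derivative p).natDegree = ∑ y ∈ fib p w, rootMultiplicity y (derivative p) := by
    have h1 : (derivative p).roots.card = (derivative p).natDegree :=
      IsAlgClosed.card_roots_eq_natDegree
    rw [← h1, ← Multiset.toFinset_sum_count_eq]
    have h2 : ∀ y ∈ (derivative p).roots.toFinset,
        Multiset.count y (derivative p).roots = rootMultiplicity y (derivative p) := by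
      intro y _
      rw [count_roots]
    rw [Finset.sum_congr rfl h2]
    apply Finset.sum_subset
    · intro y hy
      rw [Multiset.mem_toFinset, mem_roots (der_ne hp)] at hy
      rw [mem_fib hp]
      exact h y ((two_le_mu hp y).2 hy)
    · intro y _ hy
      rw [Multiset.mem_toFinset, ← Multiset.count_eq_zero, count_roots] at hy
      exact hy
  have hdd : (derivative p).natDegree = p.natDegree - 1 := natDegree_derivative p
  have hcard : (fib p w).card ≤ 1 := by
    have h1 : ∑ y ∈ fib p w, (rootMultiplicity y (derivative p) + 1) = p.natDegree := by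
      rw [← hsum]
      apply Finset.sum_congr rfl
      intro y hy
      rw [hder y hy]
      have := hM.2.1 p hp y
      omega
    rw [Finset.sum_add_distrib, ← hroots, hdd, Finset.sum_const, smul_eq_mul, mul_one] at h1
    omega
  have hne : (fib p w).Nonempty := by
    by_contra hemp
    rw [Finset.not_nonempty_iff_eq_empty] at hemp
    rw [hemp, Finset.sum_empty] at hsum
    omega
  obtain ⟨a, ha⟩ := hne
  have hfa : fib p w = {a} := by
    apply Finset.eq_singleton_iff_unique_mem.2
    refine ⟨ha, ?_⟩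
    intro y hy
    exact Finset.card_le_one.1 hcard y hy a ha
  have hQ := prod_roots (p - C w) {a} (by
    intro y hy
    rw [Finset.mem_singleton] at hy
    apply rootMultiplicity_eq_zero
    intro hr
    have : y ∈ fib p w := by
      rw [mem_fib hp]
      simpa [IsRoot, sub_eq_zero] using hr
    rw [hfa, Finset.mem_singleton] at this
    exact hy this)
  rw [Finset.prod_singleton, ← hmu a ha] at hQ
  rw [hfa, Finset.sum_singleton] at hsum
  rw [hsum] at hQ
  exact ⟨_, a, by rw [← hQ]; ring⟩

/-- Two critical values of multiplicity two: the map is a Chebyshev map. -/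
theorem two_values {F : K[X]} (hD : 2 ≤ F.natDegree) (w₁ w₂ : K) (hw : w₁ ≠ w₂)
    (h : ∀ y, F.eval y = w₁ ∨ F.eval y = w₂ → y ≠ w₁ → y ≠ w₂ → 2 ∣ mu F y) : Cheb F := by
  have hF : 0 < F.natDegree := by omega
  have hQ : (F - C w₁) * (F - C w₂) ≠ 0 := mul_ne_zero (sub_C_ne hF _) (sub_C_ne hF _)
  obtain ⟨G, a, b, ha, hb, hG⟩ := even_mult ((F - C w₁) * (F - C w₂)) w₁ w₂ hw (by
    intro y hy1 hy2
    rw [rootMultiplicity_mul hQ]
    by_cases h1 : F.eval y = w₁
    · have h2 : rootMultiplicity y (F - C w₂) = 0 := by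
        apply rootMultiplicity_eq_zero
        intro hr
        have : F.eval y = w₂ := by simpa [IsRoot, sub_eq_zero] using hr
        exact hw (h1.symm.trans this)
      have h3 := h y (Or.inl h1) hy1 hy2
      unfold mu at h3
      rw [h1] at h3
      rw [h2, add_zero]
      exact h3
    · have h1' : rootMultiplicity y (F - C w₁) = 0 := by
        apply rootMultiplicity_eq_zero
        intro hr
        exact h1 (by simpa [IsRoot, sub_eq_zero] using hr)
      rw [h1', zero_add]
      by_cases h2 : F.eval y = w₂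
      · have h3 := h y (Or.inr h2) hy1 hy2
        unfold mu at h3
        rw [h2] at h3
        exact h3
      · have h2' : rootMultiplicity y (F - C w₂) = 0 := by
          apply rootMultiplicity_eq_zero
          intro hr
          exact h2 (by simpa [IsRoot, sub_eq_zero] using hr)
        rw [h2']
        exact dvd_zero 2)
  have hG0 : G ≠ 0 := by
    rintro rfl
    apply hQ
    rw [hG]
    ring
  have hdeg : 2 * F.natDegree = a + b + 2 * G.natDegree := by
    have h1 := congrArg natDegree hG
    rw [natDegree_mul (sub_C_ne hF _) (sub_C_ne hF _), natDegree_sub_C, natDegree_sub_C,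
      natDegree_mul (mul_ne_zero (pow_ne_zero _ (X_sub_C_ne_zero _))
        (pow_ne_zero _ (X_sub_C_ne_zero _))) (pow_ne_zero _ hG0),
      natDegree_mul (pow_ne_zero _ (X_sub_C_ne_zero _)) (pow_ne_zero _ (X_sub_C_ne_zero _)),
      natDegree_pow, natDegree_pow, natDegree_pow, natDegree_X_sub_C, natDegree_X_sub_C] at h1
    omega
  have hab : (a = 1 ∧ b = 1) ∨ (a = 0 ∧ b = 0) := by omega
  rcases hab with ⟨rfl, rfl⟩ | ⟨rfl, rfl⟩
  · refine ⟨w₁, w₂, hw, G, ?_⟩
    rw [hG]
    ring
  · exfalso
    rw [pow_zero, pow_zero, one_mul, one_mul] at hG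
    have h1 : (2 * F - C (w₁ + w₂) - 2 * G) * (2 * F - C (w₁ + w₂) + 2 * G)
        = C ((w₁ - w₂) ^ 2) := by
      have : C ((w₁ - w₂) ^ 2) = (C w₁ - C w₂) ^ 2 := by simp
      rw [this, C_add]
      linear_combination 4 * hG
    have hne : C ((w₁ - w₂) ^ 2) ≠ (0 : K[X]) := by
      rw [Ne, C_eq_zero]
      exact pow_ne_zero _ (sub_ne_zero.2 hw)
    have hA : (2 * F - C (w₁ + w₂) - 2 * G) ≠ 0 := by
      intro h0
      rw [h0, zero_mul] at h1
      exact hne h1.symm
    have hB : (2 * F - C (w₁ + w₂) + 2 * G) ≠ 0 := by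
      intro h0
      rw [h0, mul_zero] at h1
      exact hne h1.symm
    have h2 := congrArg natDegree h1
    rw [natDegree_mul hA hB, natDegree_C] at h2
    have h3 : (2 * F - C (w₁ + w₂) - 2 * G).natDegree = 0 := by omega
    have h4 : (2 * F - C (w₁ + w₂) + 2 * G).natDegree = 0 := by omega
    obtain ⟨α, hα⟩ := natDegree_eq_zero.1 h3
    obtain ⟨β, hβ⟩ := natDegree_eq_zero.1 h4
    have h5 : C (4 : K) * F = C (α + β + 2 * (w₁ + w₂)) := by
      have e1 : (C (4 : K) : K[X]) = 4 := map_ofNat C 4
      have e0 : (C (2 : K) : K[X]) = 2 := map_ofNat C 2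
      have e2 : C (α + β + 2 * (w₁ + w₂)) = C α + C β + 2 * C (w₁ + w₂) := by
        rw [C_add, C_add, C_mul, e0]
      rw [e1, e2]
      linear_combination -hα - hβ
    have h6 := congrArg natDegree h5
    rw [natDegree_C, natDegree_C_mul (by norm_num : (4 : K) ≠ 0)] at h6
    omega

theorem t_A1 (hF : S_FIB K) (hR : S_RH K) (hM : S_MUL K) : S_A1 K := by
  classical
  intro F p Y hD hm hco h
  have hp : 0 < p.natDegree := by omega
  obtain ⟨hc, h2⟩ := few hF hR hM hD hm hco h
  by_cases hone : ∃ w, ∀ x, 2 ≤ mu p x → p.eval x = w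
  · obtain ⟨w, hw⟩ := hone
    obtain ⟨c, a, hca⟩ := one_value hM hm w hw
    exact Or.inr ⟨w, c, a, hca⟩
  · left
    push Not at hone
    obtain ⟨x₁, hx₁, -⟩ := hone 0
    obtain ⟨x₂, hx₂, hne⟩ := hone (p.eval x₁)
    have hcv : cv p = {p.eval x₁, p.eval x₂} := by
      symm
      apply Finset.eq_of_subset_of_card_le
      · intro w hw
        rw [Finset.mem_insert, Finset.mem_singleton] at hw
        rw [mem_cv hp]
        rcases hw with rfl | rfl
        · exact ⟨x₁, hx₁, rfl⟩
        · exact ⟨x₂, hx₂, rfl⟩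
      · rw [Finset.card_pair (Ne.symm hne)]
        exact hc
    have hm1 : mu p x₁ = 2 := le_antisymm (h2 x₁ x₂ hx₂ (Ne.symm hne)) hx₁
    have hm2 : mu p x₂ = 2 := le_antisymm (h2 x₂ x₁ hx₁ hne) hx₂
    apply two_values hD (p.eval x₁) (p.eval x₂) (Ne.symm hne)
    intro y hy hy1 hy2
    by_contra hd
    have hycv : y ∈ cv p := by
      rcases hy with hy | hy
      · exact partc hF hM hp (by omega) hco h x₁ y hy (by rw [hm1]; exact hd)
      · exact partc hF hM hp (by omega) hco h x₂ y hy (by rw [hm2]; exact hd)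
    rw [hcv, Finset.mem_insert, Finset.mem_singleton] at hycv
    rcases hycv with h' | h'
    · exact hy1 h'
    · exact hy2 h'

end main

end Pool.Agent.H245.CH211
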